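import Pool.Agent.EQC.Stmts

/-! Squad EQC, row KA1 (helper97). -/

open SimpleGraph Finset
open Pool.Agent.Helper51_Equitable (edges nbrs vertexSum nb IsEquitableProper Nice)

namespace Pool.Agent.EQC.H97

open scoped Classical

theorem cnt_sub {α : Type} [Fintype α] (p r : α → Prop) [Fintype {x // p x}] :
    cnt (fun x : {x // p x} => r x.1) = cnt (fun x => p x ∧ r x) := by
  unfold cnt
  refine Finset.card_bij (fun x _ => x.1) ?_ ?_ ?_
  · intro x hx
    simp only [mem_filter, mem_univ, true_and] at hx ⊢
    exact ⟨x.2, hx⟩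
  · intro x _ y _ h
    exact Subtype.ext h
  · intro y hy
    simp only [mem_filter, mem_univ, true_and] at hy
    exact ⟨⟨y, hy.1⟩, by simpa using hy.2, rfl⟩

/-- splitting a finite set into parts of given sizes -/
theorem split {α : Type} (S : Finset α) (s : Fin 4 → ℕ) (h : ∑ f, s f = S.card) :
    ∃ g : α → Fin 4, ∀ f, (S.filter fun e => g e = f).card = s f := by
  have e1 : {x // x ∈ S} ≃ Fin (∑ f, s f) := by
    rw [h]; exact S.equivFin
  have e2 : {x // x ∈ S} ≃ (Σ f : Fin 4, Fin (s f)) := e1.trans finSigmaFinEquiv.symm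
  refine ⟨fun e => if h : e ∈ S then (e2 ⟨e, h⟩).1 else 0, ?_⟩
  intro f
  rw [← Fintype.card_fin (s f), ← Finset.card_univ]
  symm
  refine Finset.card_bij (fun x _ => (e2.symm ⟨f, x⟩).1) ?_ ?_ ?_
  · intro x _
    rw [mem_filter]
    refine ⟨(e2.symm ⟨f, x⟩).2, ?_⟩
    beta_reduce
    rw [dif_pos (e2.symm ⟨f, x⟩).2]
    simp
  · intro x _ y _ hxy
    have := e2.symm.injective (Subtype.ext hxy)
    simpa using this
  · intro e he
    rw [mem_filter] at he
    obtain ⟨h1, h2⟩ := he
    beta_reduce at h2
    rw [dif_pos h1] at h2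
    subst h2
    exact ⟨(e2 ⟨e, h1⟩).2, mem_univ _, by simp⟩

/-- blocks for all classes together -/
theorem blocks (hCBL : CblStmt) (Ω γ : Type) [Fintype Ω] (cls : Ω → Option γ) (q : ℕ) (hq : 1 ≤ q)
    (n r : γ → ℕ) (hc : ∀ j, cnt (fun x => cls x = some j) = q * n j + r j) (hr : ∀ j, r j ≤ q) :
    ∃ blk : Ω → (γ × ℕ) ⊕ Ω, (∀ b, cnt (fun x => blk x = b) ≤ q) ∧
      ∀ κ : Ω → Fin q, (∀ x y, blk x = blk y → κ x = κ y → x = y) →
        ∀ j k, n j ≤ cnt (fun x => cls x = some j ∧ κ x = k) ∧
          cnt (fun x => cls x = some j ∧ κ x = k) ≤ n j + (if r j = 0 then 0 else 1) := by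
  have H : ∀ j, ∃ blk : {x // cls x = some j} → ℕ, (∀ b, cnt (fun x => blk x = b) ≤ q) ∧
      ∀ κ : {x // cls x = some j} → Fin q, (∀ x y, blk x = blk y → κ x = κ y → x = y) →
        ∀ k, n j ≤ cnt (fun x => κ x = k) ∧ cnt (fun x => κ x = k) ≤ n j + (if r j = 0 then 0 else 1) := by
    intro j
    refine hCBL {x // cls x = some j} q (n j) (r j) ?_ (hr j)
    rw [← hc j, Fintype.card_subtype]
    unfold cnt
    congr
  choose B hB1 hB2 using H
  -- the combined block map
  have hex : ∃ blk : Ω → (γ × ℕ) ⊕ Ω, (∀ x j (h : cls x = some j), blk x = Sum.inl (j, B j ⟨x, h⟩)) ∧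
      (∀ x, cls x = none → blk x = Sum.inr x) := by
    have : ∀ x, ∃ b : (γ × ℕ) ⊕ Ω, (∀ j (h : cls x = some j), b = Sum.inl (j, B j ⟨x, h⟩)) ∧
      (cls x = none → b = Sum.inr x) := by
      intro x
      rcases Option.eq_none_or_eq_some (cls x) with hcx | ⟨j, hcx⟩
      · refine ⟨Sum.inr x, ?_, fun _ => rfl⟩
        intro j h
        rw [hcx] at h
        exact absurd h (by simp)
      · refine ⟨Sum.inl (j, B j ⟨x, hcx⟩), ?_, ?_⟩
        · intro j' h
          have : j = j' := by
            rw [hcx] at h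
            simpa using h
          subst this
          rfl
        · intro h
          rw [hcx] at h
          exact absurd h (by simp)
    choose b hb1 hb2 using this
    exact ⟨b, hb1, hb2⟩
  obtain ⟨blk, hb1, hb2⟩ := hex
  have hinl : ∀ x j t, blk x = Sum.inl (j, t) → ∃ h : cls x = some j, B j ⟨x, h⟩ = t := by
    intro x j t hx
    rcases Option.eq_none_or_eq_some (cls x) with hcx | ⟨j', hcx⟩
    · rw [hb2 x hcx] at hx
      exact absurd hx (by simp)
    · rw [hb1 x j' hcx] at hx
      have h1 : j' = j ∧ B j' ⟨x, hcx⟩ = t := by simpa using hx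
      obtain ⟨h1, h2⟩ := h1
      subst h1
      exact ⟨hcx, h2⟩
  refine ⟨blk, ?_, ?_⟩
  · rintro (⟨j, t⟩ | y)
    · refine le_trans (le_of_eq ?_) (hB1 j t)
      unfold cnt
      symm
      refine Finset.card_bij (fun x _ => x.1) ?_ ?_ ?_
      · intro x hx
        simp only [mem_filter, mem_univ, true_and] at hx ⊢
        rw [hb1 x.1 j x.2, hx]
      · intro x _ y _ h
        exact Subtype.ext h
      · intro y hy
        simp only [mem_filter, mem_univ, true_and] at hy
        obtain ⟨h, h2⟩ := hinl y j t hy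
        exact ⟨⟨y, h⟩, by simpa using h2, rfl⟩
    · refine le_trans ?_ hq
      unfold cnt
      rw [Finset.card_le_one]
      intro x hx z hz
      simp only [mem_filter, mem_univ, true_and] at hx hz
      have key : ∀ x, blk x = Sum.inr y → x = y := by
        intro x hx
        rcases hcx : cls x with _ | j'
        · rw [hb2 x hcx] at hx
          simpa using hx
        · rw [hb1 x j' hcx] at hx
          exact absurd hx (by simp)
      rw [key x hx, key z hz]
  · intro κ hκ j k
    have := hB2 j (fun x => κ x.1) (by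
      intro x y h1 h2
      apply Subtype.ext
      apply hκ _ _ _ h2
      rw [hb1 x.1 j x.2, hb1 y.1 j y.2, h1]) k
    rw [cnt_sub (fun x => cls x = some j) (fun x => κ x = k)] at this
    exact this

/-- counting the edges of one fine label and one colour -/
theorem count {V : Type} [Fintype V] (G : SimpleGraph V) {ι : Type} [Fintype ι] (κ : Sym2 V → ℕ)
    (φ : Sym2 V → Fin 4) (S : Finset (Sym2 V)) (fS : Sym2 V → Fin 4) (f : Fin 4) (T : ι → Prop)
    (E : ι → Sym2 V) (k : ℕ) (h0 : ∀ i j, E i = E j → i = j)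
    (h1 : ∀ i, T i → E i ∈ edges G ∧ φ (E i) = f)
    (h2 : ∀ e ∈ edges G, φ e = f → (∃ i, T i ∧ e = E i) ∨ (e ∈ S ∧ fS e = f))
    (h3 : ∀ e ∈ S, e ∈ edges G ∧ φ e = fS e ∧ ∀ i, e ≠ E i) :
    num G κ φ k f = cnt (fun i => T i ∧ κ (E i) = k) +
      cnt (fun e => e ∈ S ∧ fS e = f ∧ κ e = k) := by
  have hS : cnt (fun e => e ∈ S ∧ fS e = f ∧ κ e = k) =
      (S.filter fun e => fS e = f ∧ κ e = k).card := by
    unfold cnt
    congr 1
    ext e
    simp
  rw [hS]
  unfold num cnt
  have hset : ((edges G).filter fun e => κ e = k ∧ φ e = f) =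
      ((univ.filter fun i => T i ∧ κ (E i) = k).image E) ∪
        (S.filter fun e => fS e = f ∧ κ e = k) := by
    ext e
    simp only [mem_filter, mem_union, mem_image, mem_univ, true_and]
    constructor
    · rintro ⟨he, hk, hf⟩
      rcases h2 e he hf with ⟨i, hi, rfl⟩ | ⟨hS, hfS⟩
      · exact Or.inl ⟨i, ⟨hi, hk⟩, rfl⟩
      · exact Or.inr ⟨hS, hfS, hk⟩
    · rintro (⟨i, ⟨hi, hk⟩, rfl⟩ | ⟨hS, hfS, hk⟩)
      · exact ⟨(h1 i hi).1, hk, (h1 i hi).2⟩
      · obtain ⟨a, b, _⟩ := h3 e hS
        exact ⟨a, hk, by rw [b, hfS]⟩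
  have hd : Disjoint ((univ.filter fun i => T i ∧ κ (E i) = k).image E)
      (S.filter fun e => fS e = f ∧ κ e = k) := by
    rw [Finset.disjoint_left]
    intro e he he'
    simp only [mem_filter, mem_image, mem_univ, true_and] at he he'
    obtain ⟨i, _, rfl⟩ := he
    exact (h3 _ he'.1).2.2 i rfl
  rw [hset, Finset.card_union_of_disjoint hd, Finset.card_image_of_injective _ (fun i j h => h0 i j h)]
  congr

theorem ka1 (hCBL : CblStmt) (hSCO : ScoStmt) (hGAM : GamStmt) : Ka1Stmt := by
  intro V _ G D ι _ P q a b hq hA hB ha hb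
  have hq1 : 1 ≤ q := by rw [hq]; exact Nat.one_le_two_pow
  set m := (edges G).card with hm
  set Q := m / (4 * q) with hQ
  -- single edges
  set Pr : Sym2 V → Prop := fun e => ∃ i, e = P.e0 i ∨ e = P.e1 i with hPr
  set S : Finset (Sym2 V) := (edges G).filter (fun e => ¬ Pr e) with hS
  have hι : Fintype.card ι = q * a + q * b := by
    rw [← hA, ← hB]
    unfold cnt
    rw [← Finset.card_univ, ← Finset.card_filter_add_card_filter_not (s := univ) (fun i => P.ty i = true)]
    have h1 : (univ.filter fun i => ¬ P.ty i = true) = univ.filter fun i => P.ty i = false := by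
      ext i
      simp
    rw [h1]
    congr
  have hScard : S.card + 2 * (q * a + q * b) = m := by
    have h1 : S.card + ((edges G).filter Pr).card = m := by
      rw [hm, hS, add_comm]
      exact Finset.card_filter_add_card_filter_not (s := edges G) Pr
    have h2 : (edges G).filter Pr = (univ.image P.e0) ∪ (univ.image P.e1) := by
      ext e
      simp only [mem_filter, mem_union, mem_image, mem_univ, true_and, hPr]
      constructor
      · rintro ⟨_, i, h | h⟩
        · exact Or.inl ⟨i, h.symm⟩
        · exact Or.inr ⟨i, h.symm⟩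
      · rintro (⟨i, h⟩ | ⟨i, h⟩)
        · exact ⟨h ▸ P.e0_mem i, i, Or.inl h.symm⟩
        · exact ⟨h ▸ P.e1_mem i, i, Or.inr h.symm⟩
    rw [h2, Finset.card_union_of_disjoint, Finset.card_image_of_injective _ (fun i j h => P.e0_inj i j h),
      Finset.card_image_of_injective _ (fun i j h => P.e1_inj i j h), Finset.card_univ, hι] at h1
    · omega
    · rw [Finset.disjoint_left]
      intro e he he'
      simp only [mem_image, mem_univ, true_and] at he he'
      obtain ⟨i, rfl⟩ := he
      obtain ⟨j, hj⟩ := he'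
      exact P.e01 i j hj.symm
  -- sizes of the parts
  set r := m - 4 * q * Q with hr
  have hr4 : r < 4 * q := by
    have := Nat.mod_add_div m (4 * q)
    have h2 := Nat.mod_lt m (show 0 < 4 * q by omega)
    rw [← hQ] at this
    omega
  have hmr : m = 4 * (q * Q) + r := by
    have := Nat.div_mul_le_self m (4 * q)
    rw [← hQ] at this
    have e : 4 * q * Q = 4 * (q * Q) := by ring
    have e' : Q * (4 * q) = 4 * (q * Q) := by ring
    rw [hr, e]
    omega
  set rr : Fin 4 → ℕ := fun f => min q (r - q * f.1) with hrr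
  set nn : Fin 4 → ℕ := fun f => if f.1 ≤ 1 then Q - a else Q - b with hnn
  have hsum : ∑ f, (q * nn f + rr f) = S.card := by
    have e1 : q * (Q - a) = q * Q - q * a := Nat.mul_sub q Q a
    have e2 : q * (Q - b) = q * Q - q * b := Nat.mul_sub q Q b
    have e3 : q * a ≤ q * Q := Nat.mul_le_mul_left q ha
    have e4 : q * b ≤ q * Q := Nat.mul_le_mul_left q hb
    rw [Fin.sum_univ_four]
    simp only [hnn, hrr]
    norm_num
    rw [e1, e2]
    omega
  obtain ⟨fS, hfS⟩ := split S (fun f => q * nn f + rr f) hsum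
  -- owners
  have hown : ∃ own : Sym2 V → ι ⊕ Sym2 V, (∀ i, own (P.e0 i) = Sum.inl i) ∧
      (∀ i, own (P.e1 i) = Sum.inl i) ∧ (∀ e, ¬ Pr e → own e = Sum.inr e) ∧
      (∀ e i, own e = Sum.inl i → e = P.e0 i ∨ e = P.e1 i) := by
    refine ⟨fun e => if h : Pr e then Sum.inl h.choose else Sum.inr e, ?_, ?_, ?_, ?_⟩
    · intro i
      have h : Pr (P.e0 i) := ⟨i, Or.inl rfl⟩
      simp only
      rw [dif_pos h]
      rcases h.choose_spec with h1 | h1
      · rw [← P.e0_inj _ _ h1]
      · exact absurd h1 (P.e01 _ _)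
    · intro i
      have h : Pr (P.e1 i) := ⟨i, Or.inr rfl⟩
      simp only
      rw [dif_pos h]
      rcases h.choose_spec with h1 | h1
      · exact absurd h1.symm (P.e01 _ _)
      · rw [← P.e1_inj _ _ h1]
    · intro e h
      simp only
      rw [dif_neg h]
    · intro e i h
      by_cases hp : Pr e
      · simp only at h
        rw [dif_pos hp] at h
        have : hp.choose = i := by simpa using h
        rw [← this]
        exact hp.choose_spec
      · simp only at h
        rw [dif_neg hp] at h
        exact absurd h (by simp)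
  obtain ⟨own, ho0, ho1, hoS, hoi⟩ := hown
  obtain ⟨R, hRs, hRi, hRd, hRl⟩ := hGAM V G D ι P (ι ⊕ Sym2 V) own
    (fun i => by rw [ho0, ho1]) (by
      intro e _ e' _ hee
      rcases hoe : own e with i | x
      · rw [hoe] at hee
        have h1 := hoi e i hoe
        have h2 := hoi e' i hee.symm
        rcases h1 with h1 | h1 <;> rcases h2 with h2 | h2
        · exact Or.inl (h1.trans h2.symm)
        · exact Or.inr (Or.inl ⟨i, h1, h2⟩)
        · exact Or.inr (Or.inr ⟨i, h1, h2⟩)
        · exact Or.inl (h1.trans h2.symm)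
      · have h1 : ¬ Pr e := by
          rintro ⟨i, h | h⟩
          · rw [h, ho0] at hoe
            exact absurd hoe (by simp)
          · rw [h, ho1] at hoe
            exact absurd hoe (by simp)
        have h2 : ¬ Pr e' := by
          rintro ⟨i, h | h⟩
          · rw [hoe, h, ho0] at hee
            exact absurd hee (by simp)
          · rw [hoe, h, ho1] at hee
            exact absurd hee (by simp)
        rw [hoS e h1, hoS e' h2] at hee
        left
        simpa using hee)
  -- classes
  set cls : ι ⊕ Sym2 V → Option (Bool ⊕ Fin 4) := fun x => match x with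
    | Sum.inl i => some (Sum.inl (P.ty i))
    | Sum.inr e => if e ∈ S then some (Sum.inr (fS e)) else none with hcls
  set N : Bool ⊕ Fin 4 → ℕ := fun j => match j with
    | Sum.inl true => a
    | Sum.inl false => b
    | Sum.inr f => nn f with hN
  set RR : Bool ⊕ Fin 4 → ℕ := fun j => match j with
    | Sum.inl _ => 0
    | Sum.inr f => rr f with hRR
  have cinl : ∀ (t : Bool) (p : ι ⊕ Sym2 V → Prop), cnt (fun x => cls x = some (Sum.inl t) ∧ p x) =
      cnt (fun i => P.ty i = t ∧ p (Sum.inl i)) := by
    intro t p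
    unfold cnt
    symm
    refine Finset.card_bij (fun i _ => Sum.inl i) ?_ ?_ ?_
    · intro i hi
      simp only [mem_filter, mem_univ, true_and] at hi ⊢
      refine ⟨?_, hi.2⟩
      simp only [hcls]
      rw [hi.1]
    · intro i _ j _ h
      simpa using h
    · intro x hx
      simp only [mem_filter, mem_univ, true_and] at hx
      rcases x with i | e
      · refine ⟨i, ?_, rfl⟩
        simp only [mem_filter, mem_univ, true_and]
        refine ⟨?_, hx.2⟩
        have := hx.1
        simp only [hcls] at this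
        simpa using this
      · exfalso
        have := hx.1
        simp only [hcls] at this
        split_ifs at this
        simp at this
  have cinr : ∀ (f : Fin 4) (p : ι ⊕ Sym2 V → Prop), cnt (fun x => cls x = some (Sum.inr f) ∧ p x) =
      cnt (fun e => e ∈ S ∧ fS e = f ∧ p (Sum.inr e)) := by
    intro f p
    unfold cnt
    symm
    refine Finset.card_bij (fun e _ => Sum.inr e) ?_ ?_ ?_
    · intro e he
      simp only [mem_filter, mem_univ, true_and] at he ⊢
      refine ⟨?_, he.2.2⟩
      simp only [hcls]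
      rw [if_pos he.1, he.2.1]
    · intro i _ j _ h
      simpa using h
    · intro x hx
      simp only [mem_filter, mem_univ, true_and] at hx
      rcases x with i | e
      · exfalso
        have := hx.1
        simp [hcls] at this
      · refine ⟨e, ?_, rfl⟩
        have h1 := hx.1
        simp only [hcls] at h1
        split_ifs at h1 with h
        · simp only [mem_filter, mem_univ, true_and]
          refine ⟨h, ?_, hx.2⟩
          simpa using h1
  have hcnt_tr : ∀ (α : Type) [Fintype α] (p : α → Prop), cnt (fun x => p x ∧ True) = cnt p := by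
    intro α _ p
    simp
  have hcc : ∀ j, cnt (fun x => cls x = some j) = q * N j + RR j := by
    intro j
    rw [← hcnt_tr]
    rcases j with t | f
    · rw [cinl t (fun _ => True)]
      rcases t with _ | _
      · simp only [hN, hRR, and_true, add_zero]
        exact hB
      · simp only [hN, hRR, and_true, add_zero]
        exact hA
    · rw [cinr f (fun _ => True)]
      simp only [hN, hRR]
      rw [← hfS f]
      unfold cnt
      congr 1
      ext e
      simp
  obtain ⟨blk, hblk, hκ⟩ := blocks hCBL (ι ⊕ Sym2 V) (Bool ⊕ Fin 4) cls q hq1 N RR hcc (by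
    intro j
    rcases j with t | f
    · simp [hRR]
    · simp [hRR, hrr])
  subst hq
  obtain ⟨κ', hκ1, hκ2⟩ := hSCO (8 * D ^ 2) (ι ⊕ Sym2 V) _ blk R hRs hRi hRd hblk
  have hκ3 := hκ κ' hκ1
  -- the fine labels
  have hφ : ∃ φ : Sym2 V → Fin 4, (∀ i, φ (P.e0 i) = (if P.ty i then 0 else 2)) ∧
      (∀ i, φ (P.e1 i) = (if P.ty i then 1 else 3)) ∧ (∀ e, ¬ Pr e → φ e = fS e) := by
    refine ⟨fun e => match own e with
      | Sum.inl i => if e = P.e0 i then (if P.ty i then 0 else 2) else (if P.ty i then 1 else 3)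
      | Sum.inr e' => fS e', ?_, ?_, ?_⟩
    · intro i
      simp only [ho0]
      rw [if_pos trivial]
    · intro i
      simp only [ho1]
      rw [if_neg (fun h => P.e01 i i h.symm)]
    · intro e he
      simp only [hoS e he]
  obtain ⟨φ, hφ0, hφ1, hφS⟩ := hφ
  refine ⟨fun e => (κ' (own e)).1, φ, fun e => (κ' (own e)).2, fun i => by simp only [ho0, ho1],
    fun i => ⟨hφ0 i, hφ1 i⟩, ?_, ?_⟩
  · intro k hk f
    have hSe : ∀ e ∈ S, e ∈ edges G ∧ ¬ Pr e := by
      intro e he
      rw [hS, mem_filter] at he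
      exact he
    -- the four cases
    have gen : ∀ (t : Bool) (E : ι → Sym2 V) (f : Fin 4), (∀ i j, E i = E j → i = j) →
        (∀ i, own (E i) = Sum.inl i) → (∀ i, Pr (E i)) →
        (∀ i, P.ty i = t → E i ∈ edges G ∧ φ (E i) = f) →
        (∀ e ∈ edges G, φ e = f → Pr e → ∃ i, P.ty i = t ∧ e = E i) →
        N (Sum.inl t) + nn f = Q →
        Q ≤ num G (fun e => (κ' (own e)).1) φ k f ∧ num G (fun e => (κ' (own e)).1) φ k f ≤ Q + 1 := by
      intro t E f g0 g1 g2 g3 g4 g5
      rw [count G _ φ S fS f (fun i => P.ty i = t) E k g0 g3 (by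
        intro e he hf
        by_cases hp : Pr e
        · exact Or.inl (g4 e he hf hp)
        · right
          refine ⟨?_, ?_⟩
          · rw [hS, mem_filter]; exact ⟨he, hp⟩
          · rw [← hφS e hp, hf]) (by
        intro e he
        obtain ⟨h1, h2⟩ := hSe e he
        refine ⟨h1, hφS e h2, ?_⟩
        rintro i rfl
        exact h2 (g2 i))]
      have c1 := hκ3 (Sum.inl t) ⟨k, hk⟩
      have c2 := hκ3 (Sum.inr f) ⟨k, hk⟩
      rw [cinl] at c1
      rw [cinr] at c2
      have d1 : cnt (fun i => P.ty i = t ∧ (κ' (own (E i))).1 = k) =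
          cnt (fun i => P.ty i = t ∧ κ' (Sum.inl i) = ⟨k, hk⟩) := by
        congr 1
        funext i
        rw [g1 i, Fin.ext_iff]
      have d2 : cnt (fun e => e ∈ S ∧ fS e = f ∧ (κ' (own e)).1 = k) =
          cnt (fun e => e ∈ S ∧ fS e = f ∧ κ' (Sum.inr e) = ⟨k, hk⟩) := by
        congr 1
        funext e
        apply propext
        apply and_congr_right
        intro he
        have : ((κ' (own e)).1 = k) ↔ (κ' (Sum.inr e) = ⟨k, hk⟩) := by
          rw [hoS e (hSe e he).2, Fin.ext_iff (b := ⟨k, hk⟩)]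
        rw [this]
      rw [d1, d2]
      have c3 : RR (Sum.inl t) = 0 := rfl
      rw [c3] at c1
      have c4 : N (Sum.inr f) = nn f := rfl
      rw [c4] at c2
      have c5 : (if RR (Sum.inr f) = 0 then 0 else 1) ≤ 1 := by split_ifs <;> omega
      simp only [if_true] at c1
      omega
    have prop : ∀ e, Pr e → ∀ f, φ e = f → ∃ i, (e = P.e0 i ∧ f = (if P.ty i then 0 else 2)) ∨
        (e = P.e1 i ∧ f = (if P.ty i then 1 else 3)) := by
      rintro e ⟨i, h | h⟩ f hf
      · exact ⟨i, Or.inl ⟨h, by rw [← hf, h, hφ0]⟩⟩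
      · exact ⟨i, Or.inr ⟨h, by rw [← hf, h, hφ1]⟩⟩
    have hNt : N (Sum.inl true) = a := rfl
    have hNf : N (Sum.inl false) = b := rfl
    fin_cases f
    · refine gen true P.e0 0 P.e0_inj ho0 (fun i => ⟨i, Or.inl rfl⟩) ?_ ?_ ?_
      · intro i hi
        refine ⟨P.e0_mem i, ?_⟩
        rw [hφ0, hi]; rfl
      · intro e _ hf hp
        obtain ⟨i, ⟨h1, h2⟩ | ⟨h1, h2⟩⟩ := prop e hp 0 hf
        · refine ⟨i, ?_, h1⟩
          by_contra hc
          rw [if_neg hc] at h2
          exact absurd h2 (by decide)
        · exfalso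
          split_ifs at h2
          · exact absurd h2 (by decide)
          · exact absurd h2 (by decide)
      · rw [hNt]
        simp only [hnn]
        norm_num
        omega
    · refine gen true P.e1 1 P.e1_inj ho1 (fun i => ⟨i, Or.inr rfl⟩) ?_ ?_ ?_
      · intro i hi
        refine ⟨P.e1_mem i, ?_⟩
        rw [hφ1, hi]; rfl
      · intro e _ hf hp
        obtain ⟨i, ⟨h1, h2⟩ | ⟨h1, h2⟩⟩ := prop e hp 1 hf
        · exfalso
          split_ifs at h2
          · exact absurd h2 (by decide)
          · exact absurd h2 (by decide)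
        · refine ⟨i, ?_, h1⟩
          by_contra hc
          rw [if_neg hc] at h2
          exact absurd h2 (by decide)
      · rw [hNt]
        simp only [hnn]
        norm_num
        omega
    · refine gen false P.e0 2 P.e0_inj ho0 (fun i => ⟨i, Or.inl rfl⟩) ?_ ?_ ?_
      · intro i hi
        refine ⟨P.e0_mem i, ?_⟩
        rw [hφ0, hi]; rfl
      · intro e _ hf hp
        obtain ⟨i, ⟨h1, h2⟩ | ⟨h1, h2⟩⟩ := prop e hp 2 hf
        · refine ⟨i, ?_, h1⟩
          rcases hty : P.ty i with _ | _
          · rfl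
          · rw [hty] at h2
            exact absurd h2 (by decide)
        · exfalso
          split_ifs at h2
          · exact absurd h2 (by decide)
          · exact absurd h2 (by decide)
      · rw [hNf]
        simp only [hnn]
        norm_num
        omega
    · refine gen false P.e1 3 P.e1_inj ho1 (fun i => ⟨i, Or.inr rfl⟩) ?_ ?_ ?_
      · intro i hi
        refine ⟨P.e1_mem i, ?_⟩
        rw [hφ1, hi]; rfl
      · intro e _ hf hp
        obtain ⟨i, ⟨h1, h2⟩ | ⟨h1, h2⟩⟩ := prop e hp 3 hf
        · exfalso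
          split_ifs at h2
          · exact absurd h2 (by decide)
          · exact absurd h2 (by decide)
        · refine ⟨i, ?_, h1⟩
          rcases hty : P.ty i with _ | _
          · rfl
          · rw [hty] at h2
            exact absurd h2 (by decide)
      · rw [hNf]
        simp only [hnn]
        norm_num
        omega
  · intro u w hadj hdg hlow h2
    obtain ⟨e, he, hue, hall⟩ := hRl u w hadj hdg hlow h2
    refine ⟨(κ' (own e)).1, ?_⟩
    have h1 : 1 ≤ deg' G (fun e => (κ' (own e)).1) u (κ' (own e)).1 := by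
      unfold deg' at'
      apply Finset.card_pos.mpr
      exact ⟨e, by simp only [mem_filter]; exact ⟨⟨he, hue⟩, trivial⟩⟩
    have h3 : deg' G (fun e => (κ' (own e)).1) w (κ' (own e)).1 = 0 := by
      unfold deg' at'
      rw [Finset.card_eq_zero, Finset.filter_eq_empty_iff]
      intro e' he' hk
      rw [mem_filter] at he'
      have := hκ2 _ _ (hall e' he'.1 he'.2)
      exact this (Fin.ext hk.symm)
    omega

end Pool.Agent.EQC.H97
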